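import Pool.Agent.THS.StmtsL

namespace Pool.Agent.Helper92_THS

open Pool.Agent.THS
open scoped BigOperators

theorem short_one {K : Type} [Field K] (v : AbsoluteValue K ℝ) {ε : ℝ} (hε : 0 ≤ ε) :
    Short v 1 ε (fun _ _ => (1 : K)) := by
  refine ⟨fun _ _ => 1, fun _ _ => 1, ?_, ?_, ?_⟩
  · intro s i
    simp
  · intro s i
    simp
  · intro i j
    simpa using hε

theorem les_aux (hshm : ShmStatement) (htsc : TscStatement) (n : ℕ) : ∀ L : ℕ, ∃ c : ℕ,
    ∀ (K : Type) [Field K] (v : AbsoluteValue K ℝ) (ρ : ℝ) (e : ℤ → K),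
    IsNonarchimedean v → v 2 = 1 → 0 < ρ → ρ < 1 → (∀ k, v (e k - 1) ≤ ρ) →
    Short v n 0 (fun i j => e (i + j) * e (i - j)) →
    Short v c (ρ ^ (L + 1)) (fun i j => 1 - e (i + j)) := by
  intro L
  induction L with
  | zero =>
    refine ⟨0, ?_⟩
    intro K _ v ρ e hna h2 h0 h1 he hs
    refine ⟨fun _ _ => 0, fun _ _ => 0, ?_, ?_, ?_⟩
    · intro s i
      simp
    · intro s i
      simp
    · intro i j
      have h3 : v (1 - e (i + j)) ≤ ρ := by
        rw [v.map_sub]
        exact he _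
      simpa using h3
  | succ L ih =>
    obtain ⟨c, hc⟩ := ih
    refine ⟨3 * (1 + n + c * c), ?_⟩
    intro K _ v ρ e hna h2 h0 h1 he hs
    obtain ⟨s1, s2, s3, s4, s5⟩ := hshm K v hna
    have hd : ∀ k, v (1 - e k) ≤ ρ := fun k => by
      rw [v.map_sub]
      exact he _
    have hL := hc K v ρ e hna h2 h0 h1 he hs
    have hLm : Short v c (ρ ^ (L + 1)) (fun i j => 1 - e (i - j)) := by
      have h3 := s5 c (ρ ^ (L + 1)) (fun i j => 1 - e (i + j)) (fun i => i) (fun j => -j) hL
      exact h3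
    have hmul : Short v (c * c) (ρ ^ (L + 1) * ρ)
        (fun i j => (1 - e (i + j)) * (1 - e (i - j))) := by
      refine s4 c c (ρ ^ (L + 1)) ρ (fun i j => 1 - e (i + j)) (fun i j => 1 - e (i - j))
        (by positivity) ?_ h1.le (fun i j => hd _) (fun i j => hd _) hL hLm
      calc ρ ^ (L + 1) ≤ ρ ^ 1 := pow_le_pow_of_le_one h0.le h1.le (by omega)
        _ = ρ := pow_one _
    have hneg : Short v n (ρ ^ (L + 1) * ρ) (fun i j => (-1) * (e (i + j) * e (i - j))) := by
      refine s1 n n 0 (ρ ^ (L + 1) * ρ) _ le_rfl (by positivity) ?_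
      refine s3 n 0 (-1) (fun i j => e (i + j) * e (i - j)) le_rfl ?_ hs
      rw [v.map_neg, v.map_one]
    have hone : Short v 1 (ρ ^ (L + 1) * ρ) (fun _ _ => (1 : K)) :=
      short_one v (by positivity)
    have h3 := s2 (1 + n) (c * c) (ρ ^ (L + 1) * ρ) _ _ (s2 1 n _ _ _ hone hneg) hmul
    have h4 : (fun i j : ℤ => (1 + (-1) * (e (i + j) * e (i - j)))
        + (1 - e (i + j)) * (1 - e (i - j)))
        = fun i j : ℤ => (1 - e (i + j)) + (1 - e (i - j)) := by
      funext i j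
      ring
    rw [h4, ← pow_succ] at h3
    exact htsc K v (1 + n + c * c) (ρ ^ (L + 1 + 1)) (fun k => 1 - e k) hna h2
      (by positivity) h3

theorem les (hshm : ShmStatement) (htsc : TscStatement) : LesStatement := by
  intro n L
  rcases L with _ | L
  · refine ⟨0, ?_⟩
    intro K _ v ρ e hna h2 h0 h1 he hs
    refine ⟨fun _ _ => 0, fun _ _ => 0, ?_, ?_, ?_⟩
    · intro s i
      simp
    · intro s i
      simp
    · intro i j
      have h3 : v (e (i + j)) ≤ 1 := by
        have h4 : e (i + j) = (e (i + j) - 1) + 1 := by ring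
        rw [h4]
        refine (hna _ _).trans (max_le ((he _).trans h1.le) ?_)
        rw [v.map_one]
      simpa using h3
  · obtain ⟨c, hc⟩ := les_aux hshm htsc n L
    refine ⟨1 + c, ?_⟩
    intro K _ v ρ e hna h2 h0 h1 he hs
    obtain ⟨s1, s2, s3, s4, s5⟩ := hshm K v hna
    have hL := hc K v ρ e hna h2 h0 h1 he hs
    have h3 := s3 c (ρ ^ (L + 1)) (-1) _ (by positivity) (by rw [v.map_neg, v.map_one]) hL
    have h4 := s2 1 c _ _ _ (short_one v (by positivity : (0 : ℝ) ≤ ρ ^ (L + 1))) h3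
    have h5 : (fun i j : ℤ => (1 : K) + (-1) * (1 - e (i + j))) = fun i j : ℤ => e (i + j) := by
      funext i j
      ring
    rw [h5] at h4
    exact h4

end Pool.Agent.Helper92_THS
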