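import Pool.Agent.THS.StmtsN

namespace Pool.Agent.Helper92_THS

open Pool.Agent.THS
open scoped BigOperators

theorem nv_pos {K ι : Type} [Field K] [Finite ι] (v : AbsoluteValue K ℝ) {x : ι → K}
    (hx : x ≠ 0) : 0 < nv v x := by
  obtain ⟨i, hi⟩ := Function.ne_iff.mp hx
  have h1 : v (x i) ≤ nv v x :=
    le_ciSup (f := fun i => v (x i)) (Set.finite_range _).bddAbove i
  exact lt_of_lt_of_le (v.pos hi) h1

theorem nv_smul {K ι : Type} [Field K] (v : AbsoluteValue K ℝ) (a : K) (x : ι → K) :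
    nv v (fun i => a * x i) = v a * nv v x := by
  unfold nv
  rw [Real.mul_iSup_of_nonneg (v.nonneg a)]
  simp only [map_mul]

theorem htk_local (hprb : PrbStatement) {K : Type} [Field K] (v : AbsoluteValue K ℝ) {g N : ℕ}
    {α β : K} {T : ℤ → (Fin g → ZMod 2) → K}
    {x : ℤ → (Fin g → ZMod 2) × (Fin g → ZMod 2) → K} (h : NSeq K g N α β T x)
    (C : ℝ) (hC : 0 < C)
    (hdup : ∀ k, nv v (T k) ^ 4 ≤ C * nv v (T (2 * k)) * nv v (T 0) ^ 3) (k : ℤ) :
    nv v (T k) ^ (6 * N)
      ≤ C ^ (2 * N) * nv v (T 0) ^ (6 * N) * v β ^ (3 * k.natAbs ^ 2) := by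
  have h1 := hprb N (fun k => nv v (T k)) (v α) (v β) C h.hN (v.pos h.hα) (v.pos h.hβ) hC
    (fun k => nv_pos v (h.T0 k)) (by rw [← map_pow, h.ab, map_pow])
    (by
      intro k
      have h2 : T (k + N) = fun c => (α * β ^ k) * T k c := funext fun c => h.per k c
      show nv v (T (k + N)) = v α * v β ^ k * nv v (T k)
      rw [h2, nv_smul, map_mul, map_zpow₀])
    hdup k
  have h3 : (3 * k ^ 2 : ℤ) = ((3 * k.natAbs ^ 2 : ℕ) : ℤ) := by
    push_cast
    rw [sq_abs]
  rw [h3, zpow_natCast] at h1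
  exact h1

theorem htk (hhcp : HcpStatement) (hlar : LarStatement) (hlna : LnaStatement)
    (hprb : PrbStatement) : HtkStatement := by
  intro K _ _ g N α β T x h k
  have hN := h.hN
  have main := hhcp K (Fin g → ZMod 2) (Fin g → ZMod 2) (6 * N) (6 * N) (3 * k.natAbs ^ 2)
    (4 * g * N) ((4 ^ g) ^ (2 * N)) β (fun _ => T k) (fun _ => T 0) (by positivity) h.hβ
    (fun _ => h.T0 k) (fun _ => h.T0 0)
    (by
      intro v
      have hv2 : v.val 2 = 2 := by
        have : v (2 : K) = 2 := by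
          rw [← NumberField.InfinitePlace.norm_embedding_eq]
          rw [map_ofNat v.embedding 2]
          norm_num
        exact this
      have h1 := htk_local hprb v.val h (4 ^ g) (by positivity)
        (fun k => hlar K v.val g (T k) (T (2 * k)) (T 0) hv2 (h.dup k)) k
      simp only [Finset.prod_const, Finset.card_univ, Fintype.card_fin]
      refine h1.trans (le_of_eq ?_)
      show _ = (4 ^ g) ^ (2 * N) * v.val β ^ (3 * k.natAbs ^ 2) * nv v.val (T 0) ^ (6 * N)
      ring)
    (by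
      intro v
      have hna : IsNonarchimedean v.val := NumberField.FinitePlace.add_le v
      have h2ne : (2 : K) ≠ 0 := two_ne_zero
      have hv2 : 0 < v.val 2 := v.val.pos h2ne
      have hC : 0 < (v.val 2 ^ (2 * g))⁻¹ := by positivity
      have h1 := htk_local hprb v.val h ((v.val 2 ^ (2 * g))⁻¹) hC
        (fun k => by
          have h2 := hlna K v.val g (T k) (T (2 * k)) (T 0) hna (h.dup k)
          rw [mul_assoc, inv_mul_eq_div, le_div_iff₀ (by positivity)]
          linarith) k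
      simp only [Finset.prod_const, Finset.card_univ, Fintype.card_fin]
      show v.val 2 ^ (4 * g * N) * nv v.val (T k) ^ (6 * N)
        ≤ v.val β ^ (3 * k.natAbs ^ 2) * nv v.val (T 0) ^ (6 * N)
      have h3 := mul_le_mul_of_nonneg_left h1
        (by positivity : (0 : ℝ) ≤ v.val 2 ^ (4 * g * N))
      refine h3.trans (le_of_eq ?_)
      have h4 : v.val 2 ^ (4 * g * N) * ((v.val 2 ^ (2 * g))⁻¹) ^ (2 * N) = 1 := by
        rw [inv_pow, ← pow_mul]
        have : 2 * g * (2 * N) = 4 * g * N := by ring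
        rw [this]
        exact mul_inv_cancel₀ (by positivity)
      calc v.val 2 ^ (4 * g * N) * (((v.val 2 ^ (2 * g))⁻¹) ^ (2 * N) * nv v.val (T 0) ^ (6 * N)
            * v.val β ^ (3 * k.natAbs ^ 2))
          = (v.val 2 ^ (4 * g * N) * ((v.val 2 ^ (2 * g))⁻¹) ^ (2 * N))
            * (v.val β ^ (3 * k.natAbs ^ 2) * nv v.val (T 0) ^ (6 * N)) := by ring
        _ = _ := by rw [h4, one_mul])
  simp only [Finset.prod_const, Finset.card_univ, Fintype.card_fin] at main
  have e1 : Height.mulHeight (T k) ^ (6 * N) = (Height.mulHeight (T k) ^ 3) ^ (2 * N) := by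
    rw [← pow_mul]
    congr 1
    ring
  have e2 : (((4 : ℝ) ^ g) ^ (2 * N) * 2 ^ (4 * g * N)) ^ Module.finrank ℚ K
      * Height.mulHeight (T 0) ^ (6 * N)
      = (16 ^ (g * Module.finrank ℚ K) * Height.mulHeight (T 0) ^ 3) ^ (2 * N) := by
    rw [mul_pow (16 ^ (g * Module.finrank ℚ K)), ← pow_mul (Height.mulHeight (T 0)),
      show 3 * (2 * N) = 6 * N by ring]
    congr 1
    have e3 : (2 : ℝ) ^ (4 * g * N) = (4 ^ g) ^ (2 * N) := by
      rw [show (4 : ℝ) = 2 ^ 2 by norm_num, ← pow_mul, ← pow_mul]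
      congr 1
      ring
    rw [e3, show (16 : ℝ) = 4 * 4 by norm_num, mul_pow (4 : ℝ) 4, mul_pow, mul_pow]
    have e4 : (((4 : ℝ) ^ g) ^ (2 * N)) ^ Module.finrank ℚ K
        = (4 ^ (g * Module.finrank ℚ K)) ^ (2 * N) := by
      rw [← pow_mul, ← pow_mul, ← pow_mul]
      congr 1
      ring
    rw [e4]
  rw [e1, e2] at main
  exact le_of_pow_le_pow_left₀ (by omega) (by
    have := Height.mulHeight_pos (T 0)
    positivity) main

end Pool.Agent.Helper92_THS
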