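import Pool.Agent.THS.StmtsT

namespace Pool.Agent.Helper92_THS

open Pool.Agent.THS
open scoped BigOperators

theorem tbd (hcoe : CoeStatement) (hgso : GsoStatement) (hpis : PisStatement) :
    TbdStatement := by
  intro g τ hτ R
  obtain ⟨c, hc, hcoe'⟩ := hcoe g _ hτ.2
  obtain ⟨R', hR'⟩ : ∃ R' : ℝ, R' = |R| := ⟨_, rfl⟩
  have hR0 : 0 ≤ R' := by rw [hR']; exact abs_nonneg R
  have hRR : R ≤ R' := by rw [hR']; exact le_abs_self R
  have hπ := Real.pi_pos
  refine ⟨fun n => ∏ i, (Real.exp (-(Real.pi * c) * (n i : ℝ) ^ 2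
      + (2 * Real.pi * c * R' + 2 * Real.pi * R') * |(n i : ℝ)|)
      * Real.exp (2 * Real.pi * R' ^ 2)), ?_, ?_⟩
  · apply hpis g (fun _ n => Real.exp (-(Real.pi * c) * (n : ℝ) ^ 2
      + (2 * Real.pi * c * R' + 2 * Real.pi * R') * |(n : ℝ)|)
      * Real.exp (2 * Real.pi * R' ^ 2))
    · intro i n
      positivity
    · intro i
      exact (hgso (Real.pi * c) (2 * Real.pi * c * R' + 2 * Real.pi * R')
        (by positivity)).mul_right _
  · intro s z hs hz n
    have hs' : ∀ i, |s i| ≤ R' := fun i => (hs i).trans hRR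
    have hz' : ∀ i, |(z i).im| ≤ R' := fun i =>
      (Complex.abs_im_le_norm _).trans ((hz i).trans hRR)
    have hA : (∑ i, ∑ j, ((n i : ℂ) + (s i : ℂ)) * τ i j * ((n j : ℂ) + (s j : ℂ))).im
        = ∑ i, ∑ j, ((n i : ℝ) + s i) * (τ i j).im * ((n j : ℝ) + s j) := by
      rw [Complex.im_sum]
      refine Finset.sum_congr rfl fun i _ => ?_
      rw [Complex.im_sum]
      refine Finset.sum_congr rfl fun j _ => ?_
      have e1 : ((n i : ℂ) + (s i : ℂ)) = (((n i : ℝ) + s i : ℝ) : ℂ) := by push_cast; ring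
      have e2 : ((n j : ℂ) + (s j : ℂ)) = (((n j : ℝ) + s j : ℝ) : ℂ) := by push_cast; ring
      rw [e1, e2, Complex.im_mul_ofReal, Complex.im_ofReal_mul]
    have hB : (∑ i, ((n i : ℂ) + (s i : ℂ)) * z i).im
        = ∑ i, ((n i : ℝ) + s i) * (z i).im := by
      rw [Complex.im_sum]
      refine Finset.sum_congr rfl fun i _ => ?_
      have e1 : ((n i : ℂ) + (s i : ℂ)) = (((n i : ℝ) + s i : ℝ) : ℂ) := by push_cast; ring
      rw [e1, Complex.im_ofReal_mul]
    have hre : ∀ A B : ℂ, (Real.pi * Complex.I * A + 2 * Real.pi * Complex.I * B).re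
        = -(Real.pi * A.im) - 2 * Real.pi * B.im := by
      intro A B
      simp [Complex.mul_re, Complex.mul_im]
      ring
    unfold tht
    rw [Complex.norm_exp, hre, hA, hB]
    have hcn := hcoe' (fun i => (n i : ℝ) + s i)
    simp only [Matrix.map_apply] at hcn
    have hprod : ∏ i, (Real.exp (-(Real.pi * c) * (n i : ℝ) ^ 2
        + (2 * Real.pi * c * R' + 2 * Real.pi * R') * |(n i : ℝ)|)
        * Real.exp (2 * Real.pi * R' ^ 2))
        = Real.exp (∑ i, ((-(Real.pi * c) * (n i : ℝ) ^ 2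
        + (2 * Real.pi * c * R' + 2 * Real.pi * R') * |(n i : ℝ)|) + 2 * Real.pi * R' ^ 2)) := by
      rw [Real.exp_sum]
      exact Finset.prod_congr rfl fun i _ => (Real.exp_add _ _).symm
    refine le_trans ?_ (le_of_eq hprod.symm)
    apply Real.exp_le_exp.mpr
    have h1 : -(Real.pi * ∑ i, ∑ j, ((n i : ℝ) + s i) * (τ i j).im * ((n j : ℝ) + s j))
        ≤ -(Real.pi * (c * ∑ i, ((n i : ℝ) + s i) ^ 2)) := by
      have := mul_le_mul_of_nonneg_left hcn hπ.le
      linarith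
    have h2 : -(2 * Real.pi * ∑ i, ((n i : ℝ) + s i) * (z i).im)
        ≤ ∑ i, 2 * Real.pi * (R' * |(n i : ℝ) + s i|) := by
      rw [Finset.mul_sum, ← Finset.sum_neg_distrib]
      refine Finset.sum_le_sum fun i _ => ?_
      have h3 : -(((n i : ℝ) + s i) * (z i).im) ≤ R' * |(n i : ℝ) + s i| := by
        calc -(((n i : ℝ) + s i) * (z i).im) ≤ |((n i : ℝ) + s i) * (z i).im| := neg_le_abs _
          _ = |(n i : ℝ) + s i| * |(z i).im| := abs_mul _ _
          _ ≤ |(n i : ℝ) + s i| * R' := mul_le_mul_of_nonneg_left (hz' i) (abs_nonneg _)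
          _ = R' * |(n i : ℝ) + s i| := mul_comm _ _
      have h4 := mul_le_mul_of_nonneg_left h3 (by positivity : (0 : ℝ) ≤ 2 * Real.pi)
      linarith
    have h5 : -(Real.pi * (c * ∑ i, ((n i : ℝ) + s i) ^ 2))
        = ∑ i, -(Real.pi * c * ((n i : ℝ) + s i) ^ 2) := by
      rw [Finset.sum_neg_distrib, Finset.mul_sum, Finset.mul_sum]
      congr 1
      refine Finset.sum_congr rfl fun i _ => ?_
      ring
    have h6 : ∀ i, -(Real.pi * c * ((n i : ℝ) + s i) ^ 2) + 2 * Real.pi * (R' * |(n i : ℝ) + s i|)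
        ≤ (-(Real.pi * c) * (n i : ℝ) ^ 2
        + (2 * Real.pi * c * R' + 2 * Real.pi * R') * |(n i : ℝ)|) + 2 * Real.pi * R' ^ 2 := by
      intro i
      have k1 : (n i : ℝ) ^ 2 - 2 * R' * |(n i : ℝ)| ≤ ((n i : ℝ) + s i) ^ 2 := by
        have k2 : -((n i : ℝ) * s i) ≤ |(n i : ℝ)| * R' := by
          calc -((n i : ℝ) * s i) ≤ |(n i : ℝ) * s i| := neg_le_abs _
            _ = |(n i : ℝ)| * |s i| := abs_mul _ _
            _ ≤ |(n i : ℝ)| * R' := mul_le_mul_of_nonneg_left (hs' i) (abs_nonneg _)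
        nlinarith [sq_nonneg (s i)]
      have k3 : |(n i : ℝ) + s i| ≤ |(n i : ℝ)| + R' :=
        (abs_add_le _ _).trans (by linarith [hs' i])
      have k4 := mul_le_mul_of_nonneg_left k1 (by positivity : (0 : ℝ) ≤ Real.pi * c)
      have k5 := mul_le_mul_of_nonneg_left k3 (by positivity : (0 : ℝ) ≤ 2 * Real.pi * R')
      nlinarith
    have h7 := Finset.sum_le_sum (s := Finset.univ) fun i (_ : i ∈ Finset.univ) => h6 i
    rw [Finset.sum_add_distrib] at h7
    rw [h5] at h1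
    linarith

end Pool.Agent.Helper92_THS
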